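import Pool.Agent.helper86.OF.SpecB
import Pool.Agent.helper86.OF.SpecL

/-!
# Project of, module BL0: double counting of the colours
-/

open Classical
open scoped BigOperators

namespace Pool.Agent.OF

noncomputable section

theorem BL0 (hS : SCN_stmt) : BL0_stmt := by
  intro V _ K X D c hX hc
  unfold nX ep
  have h1 : ∀ i, (X.filter fun x => has K c x i).card = ∑ x ∈ X, if has K c x i then 1 else 0 :=
    fun i => Finset.card_filter _ _
  simp only [h1]
  rw [Finset.sum_comm]
  refine Finset.sum_congr rfl fun x hx => ?_
  rw [← Finset.card_filter, hS V K D c hc x]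
  unfold dg dgs
  congr 1
  ext w
  simp only [Finset.mem_filter, Finset.mem_univ, true_and, Finset.mem_compl]
  constructor
  · intro h
    exact ⟨fun hw => hX x hx w hw h, h⟩
  · intro h
    exact h.2

end

end Pool.Agent.OF
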