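import Pool.Agent.helper86.OF.SpecB

/-!
# Project of, module CNB: from colourings of the graph with tokens to templates
-/

open Classical
open scoped BigOperators

namespace Pool.Agent.OF

noncomputable section

variable {V : Type} [Fintype V]

theorem CNB_ll (G : SimpleGraph V) (X : Finset V) (D : ℕ) (v w : V) :
    (tokG G X D).Adj (Sum.inl v) (Sum.inl w) ↔ (outG G X).Adj v w := by
  unfold tokG
  rw [SimpleGraph.fromRel_adj]
  constructor
  · rintro ⟨-, h | h⟩
    · exact h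
    · exact SimpleGraph.Adj.symm h
  · intro h
    exact ⟨fun e => (outG G X).ne_of_adj h (Sum.inl_injective e), Or.inl h⟩

theorem CNB_lr (G : SimpleGraph V) (X : Finset V) (D : ℕ) (v w : V) (j : Fin D) :
    (tokG G X D).Adj (Sum.inl v) (Sum.inr (w, j)) ↔ v = w ∧ v ∈ X ∧ (j : ℕ) + dg G v < D := by
  unfold tokG
  rw [SimpleGraph.fromRel_adj]
  constructor
  · rintro ⟨-, h | h⟩
    · exact h
    · exact h.elim
  · intro h
    exact ⟨Sum.inl_ne_inr, Or.inl h⟩

/-- the colours of the tokens -/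
def CNB_T (G : SimpleGraph V) (D : ℕ) (c : Sym2 (PT V D) → ℕ) (x : V) : Finset ℕ :=
  (Finset.univ.filter fun j : Fin D => (j : ℕ) + dg G x < D).image fun j =>
    c s(Sum.inl x, Sum.inr (x, j))

theorem CNB_card (G : SimpleGraph V) (X : Finset V) (D : ℕ) (c : Sym2 (PT V D) → ℕ)
    (hc : PEC (tokG G X D) D c) (x : V) (hx : x ∈ X) :
    (CNB_T G D c x).card = D - dg G x := by
  unfold CNB_T
  rw [Finset.card_image_of_injOn]
  · have h1 : (Finset.univ.filter fun j : Fin D => (j : ℕ) + dg G x < D) =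
        Finset.univ.filter fun j : Fin D => (j : ℕ) < D - dg G x := by
      ext j
      simp only [Finset.mem_filter, Finset.mem_univ, true_and]
      omega
    rw [h1, Fin.card_filter_val_lt]
    omega
  · intro j hj k hk e
    simp only [Finset.coe_filter, Finset.mem_univ, true_and, Set.mem_ofPred_eq] at hj hk
    have h2 := hc.2 (Sum.inl x) (Sum.inr (x, j)) (Sum.inr (x, k))
      ((CNB_lr G X D x x j).2 ⟨rfl, hx, hj⟩) ((CNB_lr G X D x x k).2 ⟨rfl, hx, hk⟩) e
    exact (Prod.ext_iff.1 (Sum.inr_injective h2)).2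

theorem CNB_has (G : SimpleGraph V) (X : Finset V) (D : ℕ) (c : Sym2 (PT V D) → ℕ) (x : V)
    (hx : x ∈ X) (i : ℕ) : has (tokG G X D) c (Sum.inl x) i ↔
      i ∈ CNB_T G D c x ∨ has (outG G X) (fun e => c (e.map Sum.inl)) x i := by
  constructor
  · rintro ⟨w | ⟨w, j⟩, h, e⟩
    · rw [CNB_ll] at h
      exact Or.inr ⟨w, h, e⟩
    · rw [CNB_lr] at h
      obtain ⟨rfl, h1, h2⟩ := h
      exact Or.inl (Finset.mem_image.2 ⟨j, Finset.mem_filter.2 ⟨Finset.mem_univ _, h2⟩, e⟩)
  · rintro (h | ⟨w, h, e⟩)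
    · obtain ⟨j, hj, e⟩ := Finset.mem_image.1 h
      exact ⟨Sum.inr (x, j), (CNB_lr G X D x x j).2 ⟨rfl, hx, (Finset.mem_filter.1 hj).2⟩, e⟩
    · exact ⟨Sum.inl w, (CNB_ll G X D x w).2 h, e⟩

theorem CNB : CNB_stmt := by
  intro V _ G D X U κ hd c hc hpar hU hep hlit
  refine ⟨fun e => c (e.map Sum.inl), CNB_T G D c, ?_⟩
  have hH : ∀ i, (Hs G X (fun e => c (e.map Sum.inl)) (CNB_T G D c) i).card =
      nX (tokG G X D) c (XT X D) i := by
    intro i
    have h1 : (XT X D).filter (fun x => has (tokG G X D) c x i) =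
        (Hs G X (fun e => c (e.map Sum.inl)) (CNB_T G D c) i).map Function.Embedding.inl := by
      ext a
      constructor
      · intro ha
        obtain ⟨ha1, ha2⟩ := Finset.mem_filter.1 ha
        obtain ⟨x, hx, rfl⟩ := Finset.mem_map.1 ha1
        exact Finset.mem_map.2 ⟨x, Finset.mem_filter.2 ⟨hx, (CNB_has G X D c x hx i).1 ha2⟩, rfl⟩
      · intro ha
        obtain ⟨x, hx, rfl⟩ := Finset.mem_map.1 ha
        obtain ⟨hx1, hx2⟩ := Finset.mem_filter.1 hx
        exact Finset.mem_filter.2 ⟨Finset.mem_map.2 ⟨x, hx1, rfl⟩,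
          (CNB_has G X D c x hx1 i).2 hx2⟩
    unfold nX
    rw [h1, Finset.card_map]
  constructor
  · exact hd
  · constructor
    · intro v w h
      exact hc.1 (Sum.inl v) (Sum.inl w) ((CNB_ll G X D v w).2 h)
    · intro v w w' h h' e
      exact Sum.inl_injective (hc.2 (Sum.inl v) (Sum.inl w) (Sum.inl w') ((CNB_ll G X D v w).2 h)
        ((CNB_ll G X D v w').2 h') e)
  · intro x hx
    refine ⟨?_, ?_, ?_⟩
    · intro i hi
      obtain ⟨j, hj, rfl⟩ := Finset.mem_image.1 hi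
      exact Finset.mem_range.2 (hc.1 _ _ ((CNB_lr G X D x x j).2
        ⟨rfl, hx, (Finset.mem_filter.1 hj).2⟩))
    · rw [CNB_card G X D c hc x hx]
      have := hd x
      omega
    · rintro i hi ⟨w, hw, e⟩
      obtain ⟨j, hj, e'⟩ := Finset.mem_image.1 hi
      have h3 := hc.2 (Sum.inl x) (Sum.inl w) (Sum.inr (x, j)) ((CNB_ll G X D x w).2 hw)
        ((CNB_lr G X D x x j).2 ⟨rfl, hx, (Finset.mem_filter.1 hj).2⟩) (e.trans e'.symm)
      exact Sum.inl_ne_inr h3
  · intro i hi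
    rw [hH, hpar i hi]
  · intro i hi
    rw [hH]
    exact hU i hi
  · intro i hi
    refine le_trans ?_ hep
    unfold ep
    have h1 : (Finset.univ.filter fun y => y ∉ X ∧ ∃ w, w ∉ X ∧ G.Adj y w ∧
        c ((s(y, w) : Sym2 V).map Sum.inl) = i).card = ∑ y ∈ Xᶜ, if (∃ w, w ∉ X ∧ G.Adj y w ∧
        c ((s(y, w) : Sym2 V).map Sum.inl) = i) then 1 else 0 := by
      rw [← Finset.card_filter]
      congr 1
      ext y
      simp only [Finset.mem_filter, Finset.mem_univ, true_and, Finset.mem_compl]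
    rw [h1]
    refine Finset.sum_le_sum fun y hy => ?_
    split_ifs with h
    · obtain ⟨w, hw, hyw, -⟩ := h
      exact Finset.card_pos.2 ⟨w, Finset.mem_filter.2 ⟨Finset.mem_compl.2 hw, hyw⟩⟩
    · exact Nat.zero_le _
  · intro x hx
    rw [CNB_card G X D c hc x hx]
    exact hlit x hx

end

end Pool.Agent.OF
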