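import Pool.Agent.helper86.OF.SpecL

/-!
# Project of, module CUP: colour sets can be added
-/

open Classical
open scoped BigOperators

namespace Pool.Agent.OF

noncomputable section

theorem CUP : CUP_stmt := by
  rintro V _ G G₁ G₂ a b h ⟨c₁, h1, h1'⟩ ⟨c₂, h2, h2'⟩
  have val : ∀ v w, (if s(v, w) ∈ G₁.edgeSet then c₁ s(v, w) else a + c₂ s(v, w)) =
      if G₁.Adj v w then c₁ s(v, w) else a + c₂ s(v, w) := fun v w => by
    simp only [SimpleGraph.mem_edgeSet]
  refine ⟨fun e => if e ∈ G₁.edgeSet then c₁ e else a + c₂ e, ?_, ?_⟩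
  · intro v w hvw
    show (if s(v, w) ∈ G₁.edgeSet then c₁ s(v, w) else a + c₂ s(v, w)) < a + b
    rw [val]
    split_ifs with hv
    · have := h1 v w hv
      omega
    · have := h2 v w ((h v w hvw).resolve_left hv)
      omega
  · intro v w w' hw hw' e
    replace e : (if s(v, w) ∈ G₁.edgeSet then c₁ s(v, w) else a + c₂ s(v, w)) =
      (if s(v, w') ∈ G₁.edgeSet then c₁ s(v, w') else a + c₂ s(v, w')) := e
    rw [val, val] at e
    split_ifs at e with hv hv' hv'
    · exact h1' v w w' hv hv' e
    · have := h1 v w hv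
      omega
    · have := h1 v w' hv'
      omega
    · exact h2' v w w' ((h v w hw).resolve_left hv) ((h v w' hw').resolve_left hv') (by omega)

end

end Pool.Agent.OF
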