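import Pool.Agent.helper86.OF.SpecL

/-!
# Project of, module DBJ: a bijection avoiding forbidden pairs
-/

open Classical
open scoped BigOperators

namespace Pool.Agent.OF

noncomputable section

/-- DBJ with the hypothesis that `β` is not empty (needed if `P` and `Q` are empty). -/
theorem DBJ_core (α β : Type) [Fintype α] [Fintype β] [Nonempty β] (P : Finset α) (Q : Finset β)
    (bad : α → β → Prop) (hcard : P.card = Q.card)
    (hP : ∀ p ∈ P, 2 * (Q.filter fun q => bad p q).card ≤ P.card)
    (hQ : ∀ q ∈ Q, 2 * (P.filter fun p => bad p q).card ≤ P.card) :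
    ∃ f : α → β, (∀ p ∈ P, f p ∈ Q ∧ ¬ bad p (f p)) ∧ (∀ q ∈ Q, ∃ p ∈ P, f p = q) ∧
      ∀ p ∈ P, ∀ p' ∈ P, f p = f p' → p = p' := by
  have hall : ∀ s : Finset P, s.card ≤ (s.biUnion fun p : P => Q.filter fun q => ¬ bad p q).card := by
    intro s
    rcases s.eq_empty_or_nonempty with rfl | ⟨p0, hp0⟩
    · simp
    by_cases h : 2 * s.card ≤ P.card
    · have h1 : (Q.filter fun q => ¬ bad p0 q) ⊆ (s.biUnion fun p : P => Q.filter fun q => ¬ bad p q) :=
        Finset.subset_biUnion_of_mem (fun p : P => Q.filter fun q => ¬ bad p q) hp0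
      have h2 := Finset.card_le_card h1
      have h3 := Finset.card_filter_add_card_filter_not (s := Q) (fun q => bad p0 q)
      have h4 := hP p0 p0.2
      omega
    · have h1 : Q ⊆ (s.biUnion fun p : P => Q.filter fun q => ¬ bad p q) := by
        intro q hq
        by_contra hn
        have h2 : s.map (Function.Embedding.subtype _) ⊆ P.filter fun p => bad p q := by
          intro a ha
          obtain ⟨p, hp, rfl⟩ := Finset.mem_map.1 ha
          refine Finset.mem_filter.2 ⟨p.2, ?_⟩
          by_contra hb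
          exact hn (Finset.mem_biUnion.2 ⟨p, hp, Finset.mem_filter.2 ⟨hq, hb⟩⟩)
        have h3 := Finset.card_le_card h2
        rw [Finset.card_map] at h3
        have h4 := hQ q hq
        omega
      have h2 := Finset.card_le_card h1
      have h3 : s.card ≤ P.card := by
        have := Finset.card_le_univ s
        rwa [Fintype.card_coe] at this
      omega
  obtain ⟨g, hg1, hg2⟩ := (Finset.all_card_le_biUnion_card_iff_exists_injective
    (fun p : P => Q.filter fun q => ¬ bad p q)).1 hall
  let f : α → β := fun a => if h : a ∈ P then g ⟨a, h⟩ else Classical.arbitrary β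
  have hf : ∀ (a : α) (h : a ∈ P), f a = g ⟨a, h⟩ := fun a h => dif_pos h
  have hinj : ∀ p ∈ P, ∀ p' ∈ P, f p = f p' → p = p' := by
    intro p hp p' hp' h
    rw [hf p hp, hf p' hp'] at h
    exact congrArg Subtype.val (hg1 h)
  have hmem : ∀ p ∈ P, f p ∈ Q ∧ ¬ bad p (f p) := by
    intro p hp
    rw [hf p hp]
    exact Finset.mem_filter.1 (hg2 ⟨p, hp⟩)
  refine ⟨f, hmem, ?_, hinj⟩
  have himg : P.image f = Q := by
    apply Finset.eq_of_subset_of_card_le
    · intro q hq
      obtain ⟨p, hp, rfl⟩ := Finset.mem_image.1 hq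
      exact (hmem p hp).1
    · rw [Finset.card_image_of_injOn (fun p hp p' hp' h => hinj p hp p' hp' h), hcard]
  intro q hq
  rw [← himg] at hq
  obtain ⟨p, hp, h⟩ := Finset.mem_image.1 hq
  exact ⟨p, hp, h⟩

theorem DBJ : DBJ_stmt := by
  intro α β _ _ _ P Q bad h1 h2 h3
  exact DBJ_core α β P Q bad h1 h2 h3

end

end Pool.Agent.OF
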