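import Pool.Agent.helper86.OF.SpecL

/-!
# Project of, module KSW: exchanging two colours on a closed set
-/

open Classical
open scoped BigOperators

namespace Pool.Agent.OF

noncomputable section

theorem KSW_val {V : Type} {G : SimpleGraph V} {c : Sym2 V → ℕ} {i j : ℕ} {S : Finset V}
    (hS : Kcl G c i j S) {v w : V} (h : G.Adj v w) :
    ksw c i j S s(v, w) = if v ∈ S then Equiv.swap i j (c s(v, w)) else c s(v, w) := by
  have hex : (∃ u ∈ s(v, w), u ∈ S) ↔ (v ∈ S ∨ w ∈ S) := by
    constructor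
    · rintro ⟨u, hu, hS'⟩
      rcases Sym2.mem_iff.1 hu with rfl | rfl
      · exact Or.inl hS'
      · exact Or.inr hS'
    · rintro (hv | hw)
      · exact ⟨v, Sym2.mem_mk_left v w, hv⟩
      · exact ⟨w, Sym2.mem_mk_right v w, hw⟩
  unfold ksw
  simp only [hex]
  by_cases hv : v ∈ S
  · simp [hv]
  · by_cases hw : w ∈ S
    · simp only [hv, hw, or_true, if_true, if_false]
      have hne : ¬ (c s(v, w) = i ∨ c s(v, w) = j) := by
        intro h'
        exact hv ((hS v w h h').2 hw)
      rw [not_or] at hne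
      exact Equiv.swap_apply_of_ne_of_ne hne.1 hne.2
    · simp [hv, hw]

theorem KSW_has {V : Type} {G : SimpleGraph V} {c : Sym2 V → ℕ} {i j : ℕ} {S : Finset V}
    (hS : Kcl G c i j S) (v : V) (k : ℕ) :
    has G (ksw c i j S) v k ↔ has G c v (if v ∈ S then Equiv.swap i j k else k) := by
  unfold has
  constructor
  · rintro ⟨w, h, e⟩
    refine ⟨w, h, ?_⟩
    rw [KSW_val hS h] at e
    split_ifs at e ⊢ with hv
    · rw [← e, Equiv.swap_apply_self]
    · exact e
  · rintro ⟨w, h, e⟩
    refine ⟨w, h, ?_⟩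
    rw [KSW_val hS h]
    split_ifs at e ⊢ with hv
    · rw [e, Equiv.swap_apply_self]
    · exact e

theorem KSW : KSW_stmt := by
  intro V _ G D c i j S hc hi hj hS
  refine ⟨⟨?_, ?_⟩, ?_, ?_, ?_⟩
  · intro v w h
    rw [KSW_val hS h]
    have h1 := hc.1 v w h
    split_ifs with hv
    · rw [Equiv.swap_apply_def]
      split_ifs
      · exact hj
      · exact hi
      · exact h1
    · exact h1
  · intro v w w' h h' e
    rw [KSW_val hS h, KSW_val hS h'] at e
    split_ifs at e with hv
    · exact hc.2 v w w' h h' ((Equiv.swap i j).injective e)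
    · exact hc.2 v w w' h h' e
  · intro v hv
    rw [KSW_has hS, KSW_has hS, if_pos hv, if_pos hv, Equiv.swap_apply_left, Equiv.swap_apply_right]
    exact ⟨Iff.rfl, Iff.rfl⟩
  · intro v hv k
    rw [KSW_has hS, if_neg hv]
  · intro v k hki hkj
    rw [KSW_has hS, Equiv.swap_apply_of_ne_of_ne hki hkj, ite_self]

end

end Pool.Agent.OF
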