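import Pool.Agent.helper86.OF.SpecL

/-!
# Project of, module SCN: counting of colours
-/

open Classical
open scoped BigOperators

namespace Pool.Agent.OF

noncomputable section

theorem SCN : SCN_stmt := by
  intro V _ G D c hc v
  have h : (Finset.range D).filter (fun i => has G c v i) =
      (Finset.univ.filter fun w => G.Adj v w).image fun w => c s(v, w) := by
    ext i
    simp only [Finset.mem_filter, Finset.mem_range, Finset.mem_image, Finset.mem_univ, true_and]
    constructor
    · rintro ⟨-, w, hw, e⟩
      exact ⟨w, hw, e⟩
    · rintro ⟨w, hw, rfl⟩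
      exact ⟨hc.1 v w hw, w, hw, rfl⟩
  rw [h, Finset.card_image_of_injOn]
  · rfl
  · intro w hw w' hw' e
    simp only [Finset.coe_filter, Finset.mem_univ, true_and, Set.mem_ofPred_eq] at hw hw'
    exact hc.2 v w w' hw hw' e

end

end Pool.Agent.OF
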